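import Pool.Agent.H86.Torus.Blocks

/-!
# The radial approach, indexed by a block and a choice of scales
-/

open MeasureTheory Filter Topology
open scoped ENNReal

namespace Pool.Agent.H86.Torus

/-- Index set of the approach: a block and a scale for each coordinate up to its end. -/
abbrev Idx : Type := (j : ℕ) × (Fin (NN (j + 1)) → Fin (ell j))

/-- Extension of a choice of scales. -/
def ext {j : ℕ} (c : Fin (NN (j + 1)) → Fin (ell j)) (n : ℕ) : ℕ :=
  if h : n < NN (j + 1) then (c ⟨n, h⟩ : ℕ) else 0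

lemma ext_lt {j : ℕ} (c : Fin (NN (j + 1)) → Fin (ell j)) (n : ℕ) : ext c n < ell j := by
  unfold ext
  split_ifs
  · exact (c _).2
  · exact ell_pos j

/-- The radii of the approach. -/
noncomputable def RR (k : Idx) (n : ℕ) : Set.Ico (0 : ℝ) 1 :=
  ⟨rad k.1 (ext k.2) n, rad_nonneg (ext_lt k.2) n, rad_lt_one (ext_lt k.2) n⟩

instance : Infinite Idx := by
  refine Infinite.of_injective
    (fun j : ℕ => (⟨j, fun _ => ⟨0, ell_pos j⟩⟩ : Idx)) ?_
  intro i j hij
  exact congrArg Sigma.fst hij

lemma tendsto_fst : Tendsto (fun k : Idx => k.1) cofinite atTop := by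
  rw [← Nat.cofinite_eq_atTop]
  apply Filter.Tendsto.cofinite_of_finite_preimage_singleton
  intro j
  have h : (fun k : Idx => k.1) ⁻¹' {j} ⊆ Set.range (Sigma.mk j) := by
    rintro ⟨i, c⟩ hi
    have hi' : i = j := hi
    subst hi'
    exact ⟨c, rfl⟩
  exact (Set.finite_range _).subset h

lemma tendsto_RR (n : ℕ) : Tendsto (fun k : Idx => (RR k n : ℝ)) cofinite (𝓝 1) := by
  have h1 := tendsto_rad_before.comp tendsto_fst
  refine h1.congr' ?_
  have h2 : ∀ᶠ k : Idx in cofinite, n < k.1 := tendsto_fst.eventually_gt_atTop n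
  filter_upwards [h2] with k hk
  exact (rad_before (ext k.2) hk).symm

end Pool.Agent.H86.Torus
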