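import Mathlib

/-!
# Basic definitions on the infinite-dimensional torus (problem MP_8d7c8e_an)
-/

open MeasureTheory Filter Topology
open scoped ENNReal

namespace Pool.Agent.H86.Torus

/-- The circle `𝕋 = ℝ / ℤ`, the point `x` standing for `e^{2π i x}`. -/
abbrev Circ : Type := AddCircle (1 : ℝ)

/-- The boundary point `e^{2π i x}` of the unit disc. -/
noncomputable def pt (x : Circ) : ℂ := (AddCircle.toCircle x : ℂ)

/-- Haar probability measure on the circle. -/
noncomputable abbrev haarCirc : Measure Circ := AddCircle.haarAddCircle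

/-- The infinite-dimensional torus `𝕋^∞`. -/
abbrev TorusInf : Type := ℕ → Circ

/-- Haar measure on `𝕋^∞`: the product of the normalised arc-length measures. -/
noncomputable def haarInf : Measure TorusInf := Measure.infinitePi fun _ : ℕ => haarCirc

instance : IsProbabilityMeasure haarInf := by
  unfold haarInf; infer_instance

/-- The Fourier coefficient `\hat f(α)`, `α` a finitely supported sequence of integers. -/
noncomputable def coeff (f : TorusInf → ℂ) (α : ℕ →₀ ℤ) : ℂ :=
  ∫ θ, f θ * ∏ n ∈ α.support, fourier (-(α n)) (θ n) ∂haarInf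

/-- `f ∈ H^∞(𝕋^∞)`: `f` is essentially bounded and `\hat f(α) = 0` unless all entries of `α` are
nonnegative. -/
def MemHInf (f : TorusInf → ℂ) : Prop :=
  MemLp f ∞ haarInf ∧ ∀ α : ℕ →₀ ℤ, (∃ n, α n < 0) → coeff f α = 0

/-- The density `(1 - r²) / |1 - r e^{2π i x}|²` of the Poisson measure `P_r`. -/
noncomputable def poissonDensity (r : ℝ) (x : Circ) : ℝ := (1 - r ^ 2) / ‖1 - r * pt x‖ ^ 2

/-- The Poisson probability measure `P_r` on the circle, `0 ≤ r < 1`. -/
noncomputable def poissonMeasure (r : Set.Ico (0 : ℝ) 1) : Measure Circ :=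
  haarCirc.withDensity fun x => ENNReal.ofReal (poissonDensity r x)

lemma pt_coe (x : ℝ) : pt (x : Circ) = Complex.exp (2 * Real.pi * x * Complex.I) := by
  unfold pt
  rw [AddCircle.toCircle_apply_mk, Circle.coe_exp]
  push_cast
  simp

lemma norm_pt (x : Circ) : ‖pt x‖ = 1 := by
  unfold pt
  exact Circle.norm_coe _

lemma pt_add (x y : Circ) : pt (x + y) = pt x * pt y := by
  unfold pt
  rw [AddCircle.toCircle_add, Circle.coe_mul]

lemma pt_neg (x : Circ) : pt (-x) = (pt x)⁻¹ := by
  unfold pt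
  rw [AddCircle.toCircle_neg, Circle.coe_inv]

lemma continuous_pt : Continuous pt := by
  unfold pt
  have h := AddCircle.continuous_toCircle (T := (1 : ℝ))
  fun_prop

lemma pt_ne_zero (x : Circ) : pt x ≠ 0 := by
  intro h
  have := norm_pt x
  rw [h, norm_zero] at this
  exact one_ne_zero this.symm

/-- Integrals over the circle are circle averages. -/
lemma integral_circ {E : Type*} [NormedAddCommGroup E] [NormedSpace ℝ E] (F : ℂ → E) : ∫ x, F (pt x) ∂haarCirc = Real.circleAverage F 0 1 := by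
  rw [AddCircle.integral_haarAddCircle, inv_one, one_smul,
    ← AddCircle.intervalIntegral_preimage (1 : ℝ) 0]
  rw [Real.circleAverage_def, zero_add]
  have h : ∫ x in (0 : ℝ)..1, F (pt (x : Circ)) =
      ∫ x in (0 : ℝ)..1, (fun t : ℝ => F (circleMap 0 1 t)) ((2 * Real.pi) * x) := by
    congr 1
    funext x
    rw [pt_coe]
    simp only [circleMap, Complex.ofReal_mul, Complex.ofReal_ofNat, Complex.ofReal_one, one_mul,
      zero_add]
  have h2 := intervalIntegral.integral_comp_mul_left (a := 0) (b := 1)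
    (fun t : ℝ => F (circleMap 0 1 t)) (c := 2 * Real.pi) (by positivity)
  rw [h, h2]
  simp

lemma poissonDensity_eq (r : ℝ) (θ ψ : Circ) :
    poissonDensity r (θ - ψ) = poissonKernel 0 (r * pt θ) (pt ψ) := by
  unfold poissonDensity
  rw [poissonKernel_def, sub_zero, sub_zero, norm_pt, norm_mul, norm_pt, mul_one, one_pow]
  have h1 : pt (θ - ψ) = pt θ * (pt ψ)⁻¹ := by rw [sub_eq_add_neg, pt_add, pt_neg]
  have h2 : ‖1 - (r : ℂ) * pt (θ - ψ)‖ = ‖pt ψ - r * pt θ‖ := by
    have h3 : pt ψ - r * pt θ = pt ψ * (1 - (r : ℂ) * pt (θ - ψ)) := by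
      rw [h1]
      field_simp [pt_ne_zero ψ]
    rw [h3, norm_mul, norm_pt, one_mul]
  rw [h2]
  simp

lemma poissonDensity_nonneg {r : ℝ} (hr0 : 0 ≤ r) (hr1 : r < 1) (x : Circ) :
    0 ≤ poissonDensity r x := by
  unfold poissonDensity
  have : r ^ 2 ≤ 1 := by nlinarith
  apply div_nonneg (by linarith) (by positivity)

lemma one_sub_ne_zero {r : ℝ} (hr0 : 0 ≤ r) (hr1 : r < 1) (x : Circ) : (1 : ℂ) - r * pt x ≠ 0 := by
  intro h
  have h1 : (1 : ℂ) = r * pt x := sub_eq_zero.mp h
  have h2 := congrArg norm h1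
  rw [norm_one, norm_mul, norm_pt, mul_one, Complex.norm_real, Real.norm_eq_abs,
    abs_of_nonneg hr0] at h2
  linarith

lemma continuous_poissonDensity {r : ℝ} (hr0 : 0 ≤ r) (hr1 : r < 1) :
    Continuous (poissonDensity r) := by
  unfold poissonDensity
  refine continuous_const.div ?_ ?_
  · exact ((continuous_const.sub (continuous_const.mul continuous_pt)).norm).pow 2
  · intro x
    have := norm_pos_iff.mpr (one_sub_ne_zero hr0 hr1 x)
    positivity

/-- Poisson integral formula on the circle. -/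
lemma poisson_formula_aux {F : ℂ → ℂ} (hF : DiffContOnCl ℂ F (Metric.ball 0 1))
    {r : ℝ} (hr0 : 0 ≤ r) (hr1 : r < 1) (θ : Circ) :
    ∫ φ, poissonDensity r φ • F (pt (θ - φ)) ∂haarCirc = F (r * pt θ) := by
  have h1 := integral_sub_left_eq_self (fun ψ => poissonDensity r (θ - ψ) • F (pt ψ)) haarCirc θ
  simp only [sub_sub_cancel] at h1
  rw [h1]
  simp only [poissonDensity_eq]
  rw [integral_circ (fun z => poissonKernel 0 (r * pt θ) z • F z)]
  have hw : (r : ℂ) * pt θ ∈ Metric.ball (0 : ℂ) 1 := by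
    rw [mem_ball_zero_iff, norm_mul, norm_pt, mul_one, Complex.norm_real, Real.norm_eq_abs,
      abs_of_nonneg hr0]
    exact hr1
  exact hF.circleAverage_poissonKernel_smul' hw

lemma diffContOnCl_one : DiffContOnCl ℂ (fun _ : ℂ => (1 : ℂ)) (Metric.ball 0 1) :=
  diffContOnCl_const

lemma integral_poissonDensity {r : ℝ} (hr0 : 0 ≤ r) (hr1 : r < 1) :
    ∫ φ, poissonDensity r φ ∂haarCirc = 1 := by
  have h := poisson_formula_aux diffContOnCl_one hr0 hr1 0
  have h2 : ∫ φ, poissonDensity r φ • (1 : ℂ) ∂haarCirc =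
      ((∫ φ, poissonDensity r φ ∂haarCirc : ℝ) : ℂ) := by
    rw [← integral_complex_ofReal]
    congr 1
    funext φ
    simp
  rw [h2] at h
  exact_mod_cast h

instance (r : Set.Ico (0 : ℝ) 1) : IsProbabilityMeasure (poissonMeasure r) := by
  constructor
  unfold poissonMeasure
  rw [withDensity_apply _ MeasurableSet.univ, Measure.restrict_univ]
  have hc := continuous_poissonDensity r.2.1 r.2.2
  have hint : Integrable (fun x => poissonDensity r x) haarCirc :=
    hc.integrable_of_hasCompactSupport (HasCompactSupport.of_compactSpace _)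
  rw [← ofReal_integral_eq_lintegral_ofReal hint
    (Eventually.of_forall fun x => poissonDensity_nonneg r.2.1 r.2.2 x),
    integral_poissonDensity r.2.1 r.2.2, ENNReal.ofReal_one]

lemma poisson_formula {F : ℂ → ℂ} (hF : DiffContOnCl ℂ F (Metric.ball 0 1))
    (r : Set.Ico (0 : ℝ) 1) (θ : Circ) :
    ∫ φ, F (pt (θ - φ)) ∂(poissonMeasure r) = F ((r : ℝ) * pt θ) := by
  unfold poissonMeasure
  rw [integral_withDensity_eq_integral_toReal_smul]
  · rw [← poisson_formula_aux hF r.2.1 r.2.2 θ]
    congr 1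
    funext φ
    rw [ENNReal.toReal_ofReal (poissonDensity_nonneg r.2.1 r.2.2 φ)]
  · exact (continuous_poissonDensity r.2.1 r.2.2).measurable.ennreal_ofReal
  · exact Eventually.of_forall fun x => ENNReal.ofReal_lt_top

/-- The Poisson extension `f(𝐫 e^{iθ}) = (f * P_𝐫)(θ)`, where `P_𝐫` is the product of the
one-variable Poisson probability measures. -/
noncomputable def poissonExt (f : TorusInf → ℂ) (r : ℕ → Set.Ico (0 : ℝ) 1) (θ : TorusInf) : ℂ :=
  ∫ φ, f (θ - φ) ∂(Measure.infinitePi fun n => poissonMeasure (r n))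

end Pool.Agent.H86.Torus
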