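import Pool.Agent.H86.Torus.Basic

/-!
# Blaschke factors with a zero in `(0, 1)`
-/

open MeasureTheory Filter Topology
open scoped ENNReal

namespace Pool.Agent.H86.Torus

/-- The Blaschke factor `(a - z) / (1 - a z)`. -/
noncomputable def bl (a : ℝ) (z : ℂ) : ℂ := (a - z) / (1 - a * z)

lemma one_sub_mul_ne {a : ℝ} (ha0 : 0 ≤ a) (ha1 : a < 1) {z : ℂ} (hz : ‖z‖ ≤ 1) :
    (1 : ℂ) - a * z ≠ 0 := by
  intro h
  have h1 : (1 : ℂ) = a * z := sub_eq_zero.mp h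
  have h2 := congrArg norm h1
  rw [norm_one, norm_mul, Complex.norm_real, Real.norm_eq_abs, abs_of_nonneg ha0] at h2
  nlinarith [norm_nonneg z]

lemma bl_identity {a : ℝ} (ha0 : 0 ≤ a) (ha1 : a < 1) {z : ℂ} (hz : ‖z‖ ≤ 1) :
    1 - ‖bl a z‖ ^ 2 = (1 - a ^ 2) * (1 - ‖z‖ ^ 2) / ‖1 - a * z‖ ^ 2 := by
  have hne := one_sub_mul_ne ha0 ha1 hz
  have hpos : 0 < ‖1 - (a : ℂ) * z‖ ^ 2 := by
    have := norm_pos_iff.mpr hne
    positivity
  unfold bl
  rw [norm_div, div_pow, eq_div_iff hpos.ne', sub_mul, div_mul_cancel₀ _ hpos.ne', one_mul]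
  simp only [← Complex.normSq_eq_norm_sq, Complex.normSq_apply]
  simp
  ring

lemma norm_bl_le_one {a : ℝ} (ha0 : 0 ≤ a) (ha1 : a < 1) {z : ℂ} (hz : ‖z‖ ≤ 1) :
    ‖bl a z‖ ≤ 1 := by
  have h := bl_identity ha0 ha1 hz
  have h1 : 0 ≤ (1 - a ^ 2) * (1 - ‖z‖ ^ 2) / ‖1 - a * z‖ ^ 2 := by
    apply div_nonneg
    · apply mul_nonneg
      · nlinarith
      · nlinarith [norm_nonneg z]
    · positivity
  have h2 : ‖bl a z‖ ^ 2 ≤ 1 := by linarith
  exact abs_le_one_iff_mul_self_le_one.mpr (by nlinarith) |> (abs_le.mp · |>.2)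

lemma norm_bl_pt {a : ℝ} (ha0 : 0 ≤ a) (ha1 : a < 1) (x : Circ) : ‖bl a (pt x)‖ = 1 := by
  have h := bl_identity ha0 ha1 (norm_pt x).le
  rw [norm_pt] at h
  simp only [one_pow, sub_self, mul_zero, zero_div] at h
  have h1 : ‖bl a (pt x)‖ ^ 2 = 1 := by linarith
  have h2 := norm_nonneg (bl a (pt x))
  nlinarith

lemma diffContOnCl_bl {a : ℝ} (ha0 : 0 ≤ a) (ha1 : a < 1) :
    DiffContOnCl ℂ (bl a) (Metric.ball 0 1) := by
  apply DifferentiableOn.diffContOnCl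
  intro z hz
  have hz' : ‖z‖ ≤ 1 := by
    have := closure_minimal (Metric.ball_subset_closedBall) Metric.isClosed_closedBall hz
    simpa using this
  have hne := one_sub_mul_ne ha0 ha1 hz'
  unfold bl
  apply DifferentiableAt.differentiableWithinAt
  fun_prop (disch := exact hne)

lemma continuous_bl_pt {a : ℝ} (ha0 : 0 ≤ a) (ha1 : a < 1) : Continuous fun x => bl a (pt x) := by
  unfold bl
  exact (continuous_const.sub continuous_pt).div
    (continuous_const.sub (continuous_const.mul continuous_pt))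
    fun x => one_sub_mul_ne ha0 ha1 (norm_pt x).le

lemma integral_bl {a : ℝ} (ha0 : 0 ≤ a) (ha1 : a < 1) : ∫ x, bl a (pt x) ∂haarCirc = a := by
  rw [integral_circ (bl a)]
  have h := diffContOnCl_bl ha0 ha1
  have h2 := DiffContOnCl.circleAverage (f := bl a) (c := 0) (R := 1) (by simpa using h)
  rw [h2]
  simp [bl]

lemma fourier_eq_pow (k : ℕ) (x : Circ) : fourier (k : ℤ) x = pt x ^ k := by
  induction k with
  | zero => simp
  | succ k ih =>
    rw [Nat.cast_succ, fourier_add, ih, fourier_one, pow_succ]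
    rfl

lemma integral_bl_mul_fourier {a : ℝ} (ha0 : 0 ≤ a) (ha1 : a < 1) {k : ℤ} (hk : 0 < k) :
    ∫ x, bl a (pt x) * fourier k x ∂haarCirc = 0 := by
  obtain ⟨m, rfl⟩ := Int.eq_ofNat_of_zero_le hk.le
  have hm : m ≠ 0 := by
    intro h
    rw [h] at hk
    simp at hk
  simp only [fourier_eq_pow]
  rw [integral_circ (fun z => bl a z * z ^ m)]
  have h : DiffContOnCl ℂ (fun z => bl a z * z ^ m) (Metric.ball 0 |1|) := by
    rw [abs_one]
    have h2 : DiffContOnCl ℂ (fun z : ℂ => z ^ m) (Metric.ball 0 1) :=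
      (differentiable_id.pow m).diffContOnCl
    exact (diffContOnCl_bl ha0 ha1).smul h2
  rw [DiffContOnCl.circleAverage h]
  simp [hm]

/-- Key estimate: at distance `η` from the boundary and angle at most `η` from the zero, a Blaschke
factor with zero `1 - ε` is bounded away from one by a multiple of `ε / η`. -/
lemma norm_bl_le {ε η : ℝ} (hε : 0 < ε) (hεη : ε ≤ η) (hη : η ≤ 1) {x : Circ}
    (hx : ‖1 - pt x‖ ≤ η) : ‖bl (1 - ε) (((1 - η : ℝ) : ℂ) * pt x)‖ ≤ 1 - ε / (18 * η) := by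
  have hη0 : 0 < η := hε.trans_le hεη
  have hz : ‖((1 - η : ℝ) : ℂ) * pt x‖ = 1 - η := by
    rw [norm_mul, norm_pt, mul_one, Complex.norm_real, Real.norm_eq_abs, abs_of_nonneg (by linarith)]
  have hz1 : ‖((1 - η : ℝ) : ℂ) * pt x‖ ≤ 1 := by rw [hz]; linarith
  have h := bl_identity (a := 1 - ε) (by linarith) (by linarith) hz1
  rw [hz] at h
  have hne := one_sub_mul_ne (a := 1 - ε) (by linarith) (by linarith) hz1
  set D := ‖1 - ((1 - ε : ℝ) : ℂ) * (((1 - η : ℝ) : ℂ) * pt x)‖ with hD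
  have hDpos : 0 < D := norm_pos_iff.mpr hne
  have hD3 : D ≤ 3 * η := by
    have h1 : 1 - ((1 - ε : ℝ) : ℂ) * (((1 - η : ℝ) : ℂ) * pt x) =
        (ε : ℂ) + ((1 - ε : ℝ) : ℂ) * ((η : ℂ) + ((1 - η : ℝ) : ℂ) * (1 - pt x)) := by
      push_cast
      ring
    rw [hD, h1]
    have h2 : ‖(η : ℂ) + ((1 - η : ℝ) : ℂ) * (1 - pt x)‖ ≤ 2 * η := by
      calc _ ≤ ‖(η : ℂ)‖ + ‖((1 - η : ℝ) : ℂ) * (1 - pt x)‖ := norm_add_le _ _
        _ = η + (1 - η) * ‖1 - pt x‖ := by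
          rw [norm_mul, Complex.norm_real, Complex.norm_real, Real.norm_eq_abs, Real.norm_eq_abs,
            abs_of_pos hη0, abs_of_nonneg (by linarith)]
        _ ≤ η + 1 * η := by gcongr; linarith
        _ = 2 * η := by ring
    calc _ ≤ ‖(ε : ℂ)‖ + ‖((1 - ε : ℝ) : ℂ) * ((η : ℂ) + ((1 - η : ℝ) : ℂ) * (1 - pt x))‖ :=
          norm_add_le _ _
      _ = ε + (1 - ε) * ‖(η : ℂ) + ((1 - η : ℝ) : ℂ) * (1 - pt x)‖ := by
        rw [norm_mul, Complex.norm_real, Complex.norm_real, Real.norm_eq_abs, Real.norm_eq_abs,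
            abs_of_pos hε, abs_of_nonneg (by linarith)]
      _ ≤ η + 1 * (2 * η) := by
        gcongr
        · linarith
      _ = 3 * η := by ring
  have h3 : ε / (9 * η) ≤ (1 - (1 - ε) ^ 2) * (1 - (1 - η) ^ 2) / D ^ 2 := by
    rw [div_le_div_iff₀ (by positivity) (by positivity)]
    have h4 : D ^ 2 ≤ (3 * η) ^ 2 := by gcongr
    have h5 : ε ≤ 1 - (1 - ε) ^ 2 := by nlinarith
    have h6 : η ≤ 1 - (1 - η) ^ 2 := by nlinarith
    calc ε * D ^ 2 ≤ ε * (3 * η) ^ 2 := by gcongr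
      _ = ε * η * (9 * η) := by ring
      _ ≤ (1 - (1 - ε) ^ 2) * (1 - (1 - η) ^ 2) * (9 * η) := by
        have h5' : 0 ≤ 1 - (1 - ε) ^ 2 := by linarith
        gcongr
  set N := ‖bl (1 - ε) (((1 - η : ℝ) : ℂ) * pt x)‖ with hN
  have h7 : N ^ 2 ≤ 1 - ε / (9 * η) := by linarith
  have h8 : ε / (9 * η) = 2 * (ε / (18 * η)) := by field_simp; ring
  have h9 : ε / (18 * η) ≤ 1 / 18 := by
    rw [div_le_div_iff₀ (by positivity) (by positivity)]
    linarith
  have h10 : 0 < ε / (18 * η) := by positivity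
  have h11 : N ^ 2 ≤ (1 - ε / (18 * η)) ^ 2 := by nlinarith
  exact le_of_sq_le_sq h11 (by linarith)

end Pool.Agent.H86.Torus
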