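import Pool.Agent.H86.Torus.Tail

/-!
# Choice of the parameters: blocks of coordinates
-/

open MeasureTheory Filter Topology
open scoped ENNReal

namespace Pool.Agent.H86.Torus

/-- Number of scales used in the block `j`. -/
def ell (j : ℕ) : ℕ := 144 * (j + 1) * 4 ^ (j + 1)

/-- Size of the block `j`. -/
def dd (j : ℕ) : ℕ := 2 ^ (ell j - 2 * (j + 1))

/-- First coordinate of the block `j`. -/
def NN (j : ℕ) : ℕ := ∑ i ∈ Finset.range j, dd i

/-- Base of the exponents in the block `j`. -/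
def KK (j : ℕ) : ℕ := 2 ^ ell j

/-- The block containing the coordinate `n`. -/
def blk (n : ℕ) : ℕ := Nat.findGreatest (fun j => NN j ≤ n) n

lemma le_ell (j : ℕ) : 2 * (j + 1) ≤ ell j := by
  unfold ell
  have h : 1 ≤ 4 ^ (j + 1) := Nat.one_le_pow _ _ (by norm_num)
  nlinarith

lemma ell_pos (j : ℕ) : 0 < ell j := lt_of_lt_of_le (by omega) (le_ell j)

lemma dd_pos (j : ℕ) : 0 < dd j := by
  unfold dd
  positivity

lemma KK_pos (j : ℕ) : 0 < KK j := by
  unfold KK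
  positivity

lemma NN_succ (j : ℕ) : NN (j + 1) = NN j + dd j := by
  unfold NN
  rw [Finset.sum_range_succ]

lemma NN_strictMono : StrictMono NN := by
  apply strictMono_nat_of_lt_succ
  intro j
  rw [NN_succ]
  have := dd_pos j
  omega

lemma blk_eq {j n : ℕ} (h1 : NN j ≤ n) (h2 : n < NN (j + 1)) : blk n = j := by
  unfold blk
  rw [Nat.findGreatest_eq_iff]
  refine ⟨(NN_strictMono.le_apply).trans h1, fun _ => h1, ?_⟩
  intro k hk _ hk2
  have h3 : NN (j + 1) ≤ NN k := NN_strictMono.monotone hk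
  omega

/-- The value at the origin of the factor `n`. -/
noncomputable def aa (n : ℕ) : ℝ := 1 - (1 / 2) ^ (ell (blk n))

/-- The exponent of the factor `n`. -/
def MM (n : ℕ) : ℕ := KK (blk n) ^ (NN (blk n + 1) - 1 - n)

/-- The factor `n`. -/
noncomputable def FF (n : ℕ) (z : ℂ) : ℂ := bl (aa n) (z ^ MM n)

lemma MM_ne_zero (n : ℕ) : MM n ≠ 0 := by
  unfold MM
  exact pow_ne_zero _ (KK_pos _).ne'

lemma isFactor_FF (n : ℕ) : IsFactor (FF n) (aa n) := by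
  have h2 : (0 : ℝ) < (1 / 2) ^ ell (blk n) := by positivity
  have h3 : (1 / 2 : ℝ) ^ ell (blk n) ≤ 1 := pow_le_one₀ (by norm_num) (by norm_num)
  apply isFactor_bl_pow
  · unfold aa; linarith
  · unfold aa; linarith
  · exact MM_ne_zero n

lemma dd_mul (j : ℕ) : (dd j : ℝ) * (1 / 2) ^ (ell j) = (1 / 4) ^ (j + 1) := by
  have h := le_ell j
  have h1 : (1 / 2 : ℝ) ^ ell j = (1 / 2) ^ (ell j - 2 * (j + 1)) * (1 / 2) ^ (2 * (j + 1)) := by
    rw [← pow_add]; congr 1; omega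
  have h2 : (dd j : ℝ) = 2 ^ (ell j - 2 * (j + 1)) := by
    unfold dd; push_cast; rfl
  rw [h1, h2, ← mul_assoc, ← mul_pow, pow_mul]
  norm_num

lemma sum_block (j : ℕ) :
    ∑ n ∈ Finset.Ico (NN j) (NN (j + 1)), (1 - aa n) = (1 / 4) ^ (j + 1) := by
  rw [← dd_mul j]
  have h : ∀ n ∈ Finset.Ico (NN j) (NN (j + 1)), 1 - aa n = (1 / 2) ^ ell j := by
    intro n hn
    rw [Finset.mem_Ico] at hn
    unfold aa
    rw [blk_eq hn.1 hn.2]
    ring
  rw [Finset.sum_congr rfl h, Finset.sum_const, Nat.card_Ico, NN_succ, nsmul_eq_mul]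
  congr 2
  omega

lemma sum_blocks {i j : ℕ} (hij : i ≤ j) :
    ∑ n ∈ Finset.Ico (NN i) (NN j), (1 - aa n) ≤ (1 / 4) ^ i := by
  have h : ∑ n ∈ Finset.Ico (NN i) (NN j), (1 - aa n) ≤ (1 / 4) ^ i - (1 / 4) ^ j := by
    induction j, hij using Nat.le_induction with
    | base => simp
    | succ k hk ih =>
      rw [← Finset.sum_Ico_consecutive _ (NN_strictMono.monotone hk)
        (NN_strictMono.monotone (Nat.le_succ k)), sum_block]
      have h1 : (1 / 4 : ℝ) ^ (k + 1) = (1 / 4) ^ k / 4 := by rw [pow_succ]; ring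
      have h2 : (0 : ℝ) < (1 / 4) ^ k := by positivity
      linarith
  have h2 : (0 : ℝ) < (1 / 4) ^ j := by positivity
  linarith

/-- The radii attached to the block `j` and a choice `c` of scales. -/
noncomputable def rad (j : ℕ) (c : ℕ → ℕ) (n : ℕ) : ℝ :=
  if n < NN j then (1 / 2 : ℝ) ^ ((KK j ^ dd j : ℕ) : ℝ)⁻¹
  else if n < NN (j + 1) then (1 - (1 / 2) ^ (ell j - c n)) ^ ((MM n : ℕ) : ℝ)⁻¹
  else 0

lemma scale_bounds {ℓ c : ℕ} (hc : c < ℓ) :
    (1 / 2 : ℝ) ≤ 1 - (1 / 2) ^ (ℓ - c) ∧ (1 - (1 / 2 : ℝ) ^ (ℓ - c)) < 1 ∧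
      (1 - (1 / 2 : ℝ) ^ (ℓ - c)) ^ (2 ^ ℓ) ≤ 1 / 2 := by
  have h1 : (1 / 2 : ℝ) ^ (ℓ - c) ≤ (1 / 2) ^ 1 :=
    pow_le_pow_of_le_one (by norm_num) (by norm_num) (by omega)
  have h2 : (0 : ℝ) < (1 / 2) ^ (ℓ - c) := by positivity
  refine ⟨by linarith, by linarith, ?_⟩
  have h3 : (1 - (1 / 2 : ℝ) ^ (ℓ - c)) ≤ Real.exp (-(1 / 2) ^ ℓ) := by
    have h4 := Real.one_sub_le_exp_neg ((1 / 2 : ℝ) ^ ℓ)
    have h5 : (1 / 2 : ℝ) ^ ℓ ≤ (1 / 2) ^ (ℓ - c) :=
      pow_le_pow_of_le_one (by norm_num) (by norm_num) (by omega)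
    linarith
  calc (1 - (1 / 2 : ℝ) ^ (ℓ - c)) ^ (2 ^ ℓ) ≤ (Real.exp (-(1 / 2) ^ ℓ)) ^ (2 ^ ℓ) :=
        pow_le_pow_left₀ (by linarith) h3 _
    _ = Real.exp (-1) := by
      rw [← Real.exp_nat_mul]
      congr 1
      push_cast
      rw [mul_neg, ← mul_pow]
      norm_num
    _ ≤ 1 / 2 := by
      have h6 := Real.exp_one_gt_d9
      rw [Real.exp_neg, inv_le_comm₀ (Real.exp_pos 1) (by norm_num)]
      linarith

lemma rad_nonneg {j : ℕ} {c : ℕ → ℕ} (hc : ∀ n, c n < ell j) (n : ℕ) : 0 ≤ rad j c n := by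
  unfold rad
  split_ifs
  · positivity
  · exact Real.rpow_nonneg (by linarith [(scale_bounds (hc n)).1]) _
  · exact le_rfl

lemma rad_lt_one {j : ℕ} {c : ℕ → ℕ} (hc : ∀ n, c n < ell j) (n : ℕ) : rad j c n < 1 := by
  unfold rad
  split_ifs
  · apply Real.rpow_lt_one (by norm_num) (by norm_num)
    have := KK_pos j
    positivity
  · obtain ⟨h1, h2, -⟩ := scale_bounds (hc n)
    apply Real.rpow_lt_one (by linarith) h2
    have := MM_ne_zero n
    positivity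
  · exact one_pos

lemma rad_step {K s : ℕ} {u v : ℝ} (hK : K ≠ 0) (hu : 1 / 2 ≤ u) (hv0 : 0 ≤ v)
    (hv : v ^ K ≤ 1 / 2) :
    v ^ ((K ^ s : ℕ) : ℝ)⁻¹ ≤ u ^ ((K ^ (s + 1) : ℕ) : ℝ)⁻¹ := by
  have h1 : K ^ s ≠ 0 := pow_ne_zero _ hK
  have h2 : K ^ (s + 1) ≠ 0 := pow_ne_zero _ hK
  have hu0 : 0 ≤ u := by linarith
  rw [← pow_le_pow_iff_left₀ (Real.rpow_nonneg hv0 _) (Real.rpow_nonneg hu0 _) h2,
    Real.rpow_inv_natCast_pow hu0 h2, pow_succ, pow_mul, Real.rpow_inv_natCast_pow hv0 h1]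
  linarith

lemma rad_anti {j : ℕ} {c : ℕ → ℕ} (hc : ∀ n, c n < ell j) (n : ℕ) :
    rad j c (n + 1) ≤ rad j c n := by
  have hK : KK j ≠ 0 := (KK_pos j).ne'
  rcases lt_or_ge n (NN j) with h1 | h1
  · rcases lt_or_ge (n + 1) (NN j) with h2 | h2
    · unfold rad
      rw [if_pos h1, if_pos h2]
    · have h3 : n + 1 = NN j := by omega
      have h4 : n + 1 < NN (j + 1) := by
        rw [h3]; exact NN_strictMono (Nat.lt_succ_self j)
      unfold rad
      rw [if_pos h1, if_neg (not_lt.mpr h2), if_pos h4]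
      have h5 : MM (n + 1) = KK j ^ (dd j - 1) := by
        unfold MM
        rw [blk_eq h2 h4, NN_succ]
        congr 1
        omega
      have h6 : dd j = (dd j - 1) + 1 := by have := dd_pos j; omega
      rw [h5]
      obtain ⟨h7, -, h8⟩ := scale_bounds (hc (n + 1))
      have h9 := rad_step (K := KK j) (s := dd j - 1) (u := 1 / 2)
        (v := 1 - (1 / 2) ^ (ell j - c (n + 1))) hK le_rfl (by linarith) h8
      rw [← h6] at h9
      exact h9
  · rcases lt_or_ge (n + 1) (NN (j + 1)) with h2 | h2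
    · unfold rad
      rw [if_neg (not_lt.mpr h1), if_neg (by omega), if_pos h2, if_pos (by omega)]
      have h5 : MM (n + 1) = KK j ^ (NN (j + 1) - 1 - (n + 1)) := by
        unfold MM
        rw [blk_eq (by omega) h2]
      have h6 : MM n = KK j ^ (NN (j + 1) - 1 - (n + 1) + 1) := by
        unfold MM
        rw [blk_eq h1 (by omega)]
        congr 1
        omega
      rw [h5, h6]
      obtain ⟨h7, -, h8⟩ := scale_bounds (hc (n + 1))
      exact rad_step hK (scale_bounds (hc n)).1 (by linarith) h8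
    · have h3 : rad j c (n + 1) = 0 := by
        unfold rad
        rw [if_neg (by omega), if_neg (by omega)]
      rw [h3]
      exact rad_nonneg hc n

lemma rad_before {j : ℕ} (c : ℕ → ℕ) {n : ℕ} (hn : n < j) :
    rad j c n = (1 / 2 : ℝ) ^ ((KK j ^ dd j : ℕ) : ℝ)⁻¹ := by
  unfold rad
  rw [if_pos (lt_of_lt_of_le hn NN_strictMono.le_apply)]

lemma tendsto_rad_before :
    Tendsto (fun j => (1 / 2 : ℝ) ^ ((KK j ^ dd j : ℕ) : ℝ)⁻¹) atTop (𝓝 1) := by
  have h1 : Tendsto (fun j => KK j ^ dd j) atTop atTop := by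
    apply tendsto_atTop_mono _ tendsto_id
    intro j
    have h2 : j ≤ ell j := by have := le_ell j; omega
    have h3 : ell j < KK j := Nat.lt_two_pow_self
    have h4 : KK j ≤ KK j ^ dd j := Nat.le_self_pow (dd_pos j).ne' _
    simp only [id]
    omega
  have h2 : Tendsto (fun j => ((KK j ^ dd j : ℕ) : ℝ)⁻¹) atTop (𝓝 0) :=
    tendsto_inv_atTop_zero.comp (tendsto_natCast_atTop_atTop.comp h1)
  have h3 : Tendsto (fun x : ℝ => (1 / 2 : ℝ) ^ x) (𝓝 0) (𝓝 ((1 / 2 : ℝ) ^ (0 : ℝ))) :=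
    (Real.continuous_const_rpow (by norm_num)).tendsto 0
  rw [Real.rpow_zero] at h3
  exact h3.comp h2

/-- In the block, the factor at the radius `rad` is the Blaschke factor at scale `c`. -/
lemma FF_rad {j : ℕ} {c : ℕ → ℕ} {n : ℕ} (hc : c n < ell j) (h1 : NN j ≤ n)
    (h2 : n < NN (j + 1)) (x : Circ) :
    FF n ((rad j c n : ℝ) * pt x) =
      bl (1 - (1 / 2) ^ ell j) (((1 - (1 / 2) ^ (ell j - c n) : ℝ) : ℂ) * pt x ^ MM n) := by
  unfold FF aa
  rw [blk_eq h1 h2, mul_pow]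
  congr 2
  unfold rad
  rw [if_neg (not_lt.mpr h1), if_pos h2, ← Complex.ofReal_pow,
    Real.rpow_inv_natCast_pow (by linarith [(scale_bounds hc).1]) (MM_ne_zero n)]

/-- Comparison function of a block. -/
noncomputable def HB (j : ℕ) (θ : TorusInf) : ℝ :=
  ∏ n ∈ Finset.Ico (NN j) (NN (j + 1)), H (ell j) (MM n) (θ n)

lemma HB_nonneg (j : ℕ) (θ : TorusInf) : 0 ≤ HB j θ :=
  Finset.prod_nonneg fun _ _ => H_nonneg _ _ _

lemma H_le_one (ℓ M : ℕ) (x : Circ) : H ℓ M x ≤ 1 := by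
  unfold H
  have : 0 ≤ ∑ l ∈ Finset.range ℓ,
    (1 / 2 : ℝ) ^ (l + 1) * (arc ((1 / 2) ^ (ℓ - l))).indicator (fun _ => (1 : ℝ)) (M • x) :=
    Finset.sum_nonneg fun l _ => mul_nonneg (by positivity)
      (Set.indicator_nonneg (fun _ _ => zero_le_one) _)
  linarith

lemma measurable_HB (j : ℕ) : Measurable (HB j) := by
  unfold HB
  exact Finset.measurable_prod _ fun n _ => (measurable_H _ _).comp (measurable_pi_apply n)

lemma integrable_HB (j : ℕ) : Integrable (HB j) haarInf := by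
  refine Integrable.of_bound (measurable_HB j).aestronglyMeasurable 1
    (Eventually.of_forall fun θ => ?_)
  rw [Real.norm_eq_abs, abs_of_nonneg (HB_nonneg j θ)]
  exact Finset.prod_le_one (fun _ _ => H_nonneg _ _ _) fun _ _ => H_le_one _ _ _

lemma integral_H_nonneg (ℓ M : ℕ) : 0 ≤ ∫ x, H ℓ M x ∂haarCirc :=
  integral_nonneg fun _ => H_nonneg _ _ _

lemma integral_HB_le (j : ℕ) : ∫ θ, HB j θ ∂haarInf ≤ Real.exp (-(j + 1 : ℝ)) := by
  unfold HB haarInf
  rw [integral_prod_inf (μ := fun _ => haarCirc) (Finset.Ico (NN j) (NN (j + 1)))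
    (fun n => H (ell j) (MM n)) (fun n => measurable_H _ _)]
  have h1 : ∀ n ∈ Finset.Ico (NN j) (NN (j + 1)), ∫ x, H (ell j) (MM n) x ∂haarCirc ≤
      Real.exp (-((ell j : ℝ) * (1 / 2) ^ ell j / 144)) := by
    intro n _
    refine (integral_H_le (MM_ne_zero n)).trans ?_
    exact Real.one_sub_le_exp_neg _
  refine (Finset.prod_le_prod (fun n _ => integral_H_nonneg _ _) h1).trans ?_
  rw [Finset.prod_const, Nat.card_Ico, ← Real.exp_nat_mul]
  apply Real.exp_le_exp.mpr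
  have h2 : NN (j + 1) - NN j = dd j := by rw [NN_succ]; omega
  rw [h2]
  have h3 : (dd j : ℝ) * -((ell j : ℝ) * (1 / 2) ^ ell j / 144) =
      -((ell j : ℝ) * ((dd j : ℝ) * (1 / 2) ^ ell j) / 144) := by ring
  rw [h3, dd_mul]
  have h4 : (ell j : ℝ) = 144 * (j + 1) * 4 ^ (j + 1) := by
    unfold ell; push_cast; ring
  rw [h4]
  have h5 : (4 : ℝ) ^ (j + 1) * (1 / 4) ^ (j + 1) = 1 := by
    rw [← mul_pow]; norm_num
  apply le_of_eq
  calc -(144 * ((j : ℝ) + 1) * 4 ^ (j + 1) * (1 / 4) ^ (j + 1) / 144)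
      = -((j + 1) * (4 ^ (j + 1) * (1 / 4) ^ (j + 1))) := by ring
    _ = -(j + 1) := by rw [h5, mul_one]

lemma ae_eventually_HB : ∀ᵐ θ ∂haarInf, ∀ᶠ j in atTop, HB j θ < 1 / 2 := by
  have h1 : ∀ j, haarInf {θ | (1 / 2 : ℝ) ≤ HB j θ} ≤
      ENNReal.ofReal (2 * Real.exp (-(j + 1 : ℝ))) := by
    intro j
    have h2 := mul_meas_ge_le_integral_of_nonneg (μ := haarInf) (f := HB j)
      (Eventually.of_forall (HB_nonneg j)) (integrable_HB j) (1 / 2)
    have h3 := integral_HB_le j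
    have h4 : haarInf.real {θ | (1 / 2 : ℝ) ≤ HB j θ} ≤ 2 * Real.exp (-(j + 1 : ℝ)) := by linarith
    rw [← ENNReal.ofReal_toReal (measure_ne_top haarInf {θ | (1 / 2 : ℝ) ≤ HB j θ})]
    exact ENNReal.ofReal_le_ofReal h4
  have hs : Summable fun j : ℕ => 2 * Real.exp (-(j + 1 : ℝ)) := by
    apply Summable.mul_left
    have h5 : Summable fun j : ℕ => Real.exp (-(1 : ℝ)) * (Real.exp (-1)) ^ j := by
      apply Summable.mul_left
      apply summable_geometric_of_lt_one (Real.exp_pos _).le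
      rw [Real.exp_lt_one_iff]
      norm_num
    refine h5.congr fun j => ?_
    rw [← Real.exp_nat_mul, ← Real.exp_add]
    congr 1
    ring
  have h2 : ∑' j, haarInf {θ | (1 / 2 : ℝ) ≤ HB j θ} ≠ ∞ :=
    ne_top_of_le_ne_top hs.tsum_ofReal_ne_top (ENNReal.tsum_le_tsum h1)
  have h3 := measure_setOfPred_frequently_eq_zero h2
  have h4 : ∀ᵐ θ ∂haarInf, ¬ ∃ᶠ j in atTop, (1 / 2 : ℝ) ≤ HB j θ := by
    rw [ae_iff]
    simp only [not_not]
    exact h3
  filter_upwards [h4] with θ hθ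
  simpa [Filter.Frequently] using hθ

end Pool.Agent.H86.Torus
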