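import Pool.Agent.H86.Torus.Blaschke

/-!
# One-variable factors: finite Blaschke products with a positive value at the origin
-/

open MeasureTheory Filter Topology
open scoped ENNReal

namespace Pool.Agent.H86.Torus

/-- A one-variable inner function continuous up to the boundary, with value `a ∈ [0,1]` at `0`. -/
structure IsFactor (F : ℂ → ℂ) (a : ℝ) : Prop where
  diff : DiffContOnCl ℂ F (Metric.ball 0 1)
  norm_eq : ∀ x : Circ, ‖F (pt x)‖ = 1
  norm_le : ∀ z : ℂ, ‖z‖ ≤ 1 → ‖F z‖ ≤ 1
  zero : F 0 = a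
  nonneg : 0 ≤ a
  le_one : a ≤ 1

variable {F : ℂ → ℂ} {a : ℝ}

lemma IsFactor.continuous (h : IsFactor F a) : Continuous fun x => F (pt x) := by
  have h1 : ContinuousOn F (closure (Metric.ball 0 1)) := h.diff.2
  rw [closure_ball _ one_ne_zero] at h1
  exact h1.comp_continuous continuous_pt fun x => by simp [norm_pt]

lemma IsFactor.integral (h : IsFactor F a) : ∫ x, F (pt x) ∂haarCirc = a := by
  rw [integral_circ F]
  have h2 := DiffContOnCl.circleAverage (f := F) (c := 0) (R := 1) (by simpa using h.diff)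
  rw [h2, h.zero]

lemma IsFactor.integral_mul_fourier (h : IsFactor F a) {k : ℤ} (hk : 0 < k) :
    ∫ x, F (pt x) * fourier k x ∂haarCirc = 0 := by
  obtain ⟨m, rfl⟩ := Int.eq_ofNat_of_zero_le hk.le
  have hm : m ≠ 0 := by
    intro h
    rw [h] at hk
    simp at hk
  simp only [fourier_eq_pow]
  rw [integral_circ (fun z => F z * z ^ m)]
  have h : DiffContOnCl ℂ (fun z => F z * z ^ m) (Metric.ball 0 |1|) := by
    rw [abs_one]
    have h2 : DiffContOnCl ℂ (fun z : ℂ => z ^ m) (Metric.ball 0 1) :=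
      (differentiable_id.pow m).diffContOnCl
    exact h.diff.smul h2
  rw [DiffContOnCl.circleAverage h]
  simp [hm]

lemma isFactor_bl_pow {a : ℝ} (ha0 : 0 ≤ a) (ha1 : a < 1) {M : ℕ} (hM : M ≠ 0) :
    IsFactor (fun z => bl a (z ^ M)) a := by
  have hpow : ∀ z : ℂ, ‖z‖ ≤ 1 → ‖z ^ M‖ ≤ 1 := fun z hz => by
    rw [norm_pow]; exact pow_le_one₀ (norm_nonneg _) hz
  refine ⟨?_, ?_, ?_, ?_, ha0, ha1.le⟩
  · apply DifferentiableOn.diffContOnCl
    intro z hz
    have hz' : ‖z‖ ≤ 1 := by
      have := closure_minimal (Metric.ball_subset_closedBall) Metric.isClosed_closedBall hz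
      simpa using this
    have hne := one_sub_mul_ne ha0 ha1 (hpow z hz')
    unfold bl
    apply DifferentiableAt.differentiableWithinAt
    fun_prop (disch := exact hne)
  · intro x
    have h := bl_identity ha0 ha1 (hpow _ (norm_pt x).le)
    rw [norm_pow, norm_pt] at h
    simp only [one_pow, sub_self, mul_zero, zero_div] at h
    have h1 : ‖bl a (pt x ^ M)‖ ^ 2 = 1 := by linarith
    have h2 := norm_nonneg (bl a (pt x ^ M))
    nlinarith
  · intro z hz
    exact norm_bl_le_one ha0 ha1 (hpow z hz)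
  · simp [bl, hM]

end Pool.Agent.H86.Torus
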