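import Pool.Agent.H86.Torus.Product

/-!
# The limit of the partial products: Fourier coefficients and Poisson extension
-/

open MeasureTheory Filter Topology
open scoped ENNReal

namespace Pool.Agent.H86.Torus

variable {F : ℕ → ℂ → ℂ} {a : ℕ → ℝ}

lemma coeff_PP (h : ∀ n, IsFactor (F n) (a n)) {M : ℕ} {α : ℕ →₀ ℤ} {k : ℕ} (hk : k < M)
    (hα : α k < 0) : coeff (PP F M) α = 0 := by
  classical
  set s : Finset ℕ := Finset.range M ∪ α.support with hs
  set G : ℕ → Circ → ℂ := fun n x => (if n < M then F n (pt x) else 1) * fourier (-(α n)) x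
    with hG
  have hGm : ∀ n, Measurable (G n) := by
    intro n
    rw [hG]
    have h1 : Measurable fun x : Circ => fourier (-(α n)) x :=
      (fourier (-(α n))).continuous.measurable
    refine Measurable.mul ?_ h1
    split_ifs
    · exact (h n).continuous.measurable
    · exact measurable_const
  have h1 : ∀ θ : TorusInf, PP F M θ * ∏ n ∈ α.support, fourier (-(α n)) (θ n) =
      ∏ n ∈ s, G n (θ n) := by
    intro θ
    rw [hG]
    simp only
    rw [Finset.prod_mul_distrib]
    congr 1
    · unfold PP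
      rw [← Finset.prod_filter]
      congr 1
      ext n
      simp only [hs, Finset.mem_filter, Finset.mem_union, Finset.mem_range]
      tauto
    · apply Finset.prod_subset Finset.subset_union_right
      intro n _ hn
      rw [Finsupp.notMem_support_iff] at hn
      simp [hn]
  unfold coeff
  simp_rw [h1]
  unfold haarInf
  rw [integral_prod_inf (μ := fun _ => haarCirc) s G hGm]
  apply Finset.prod_eq_zero (i := k)
  · simp [hs, hk]
  · rw [hG]
    simp only [hk, if_true]
    exact (h k).integral_mul_fourier (by omega)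

lemma memHInf_limit (h : ∀ n, IsFactor (F n) (a n)) {N : ℕ → ℕ} (hN : Tendsto N atTop atTop)
    {f : TorusInf → ℂ} (hf : Measurable f) (hf1 : ∀ᵐ θ ∂haarInf, ‖f θ‖ = 1)
    (hlim : ∀ᵐ θ ∂haarInf, Tendsto (fun j => PP F (N j) θ) atTop (𝓝 (f θ))) : MemHInf f := by
  refine ⟨memLp_top_of_bound hf.aestronglyMeasurable 1 (hf1.mono fun θ hθ => hθ.le), ?_⟩
  rintro α ⟨k, hk⟩
  have hm : Measurable fun θ : TorusInf => ∏ n ∈ α.support, fourier (-(α n)) (θ n) :=
    Finset.measurable_prod _ fun n _ =>
      (fourier (-(α n))).continuous.measurable.comp (measurable_pi_apply n)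
  have h1 : Tendsto (fun j => coeff (PP F (N j)) α) atTop (𝓝 (coeff f α)) := by
    unfold coeff
    refine tendsto_integral_of_dominated_convergence (fun _ => (1 : ℝ)) ?_ (integrable_const _)
      ?_ ?_
    · intro j
      exact ((measurable_PP h _).mul hm).aestronglyMeasurable
    · intro j
      refine Eventually.of_forall fun θ => ?_
      rw [norm_mul, norm_PP h, one_mul, norm_prod]
      apply le_of_eq
      exact Finset.prod_eq_one fun n _ => by rw [fourier_apply]; exact Circle.norm_coe _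
    · filter_upwards [hlim] with θ hθ
      exact hθ.mul_const _
  have h2 : Tendsto (fun j => coeff (PP F (N j)) α) atTop (𝓝 0) := by
    apply tendsto_const_nhds.congr'
    filter_upwards [hN.eventually_gt_atTop k] with j hj
    exact (coeff_PP h hj hk).symm
  exact tendsto_nhds_unique h1 h2

/-- Haar measure is translation invariant. -/
lemma haarInf_map_sub (φ : TorusInf) : haarInf.map (fun θ => θ - φ) = haarInf := by
  unfold haarInf
  have h1 := Measure.infinitePi_map_pi (μ := fun _ : ℕ => haarCirc)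
    (f := fun n (x : Circ) => x - φ n) (fun n => by fun_prop)
  have h2 : ∀ n, haarCirc.map (fun x : Circ => x - φ n) = haarCirc := fun n =>
    map_sub_right_eq_self haarCirc (φ n)
  simp only [h2] at h1
  exact h1

lemma ae_ae_sub {p : TorusInf → Prop} (hp : MeasurableSet {θ | p θ}) (h : ∀ᵐ θ ∂haarInf, p θ)
    (ν : Measure TorusInf) [SFinite ν] : ∀ᵐ θ ∂haarInf, ∀ᵐ φ ∂ν, p (θ - φ) := by
  have hmeas : MeasurableSet {x : TorusInf × TorusInf | p (x.1 - x.2)} :=
    hp.preimage (measurable_fst.sub measurable_snd)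
  rw [Measure.ae_ae_comm hmeas]
  refine Eventually.of_forall fun φ => ?_
  have hm : Measurable fun θ : TorusInf => θ - φ := measurable_id.sub_const φ
  have h1 : ∀ᵐ θ ∂(haarInf.map fun θ => θ - φ), p θ := by rw [haarInf_map_sub]; exact h
  exact ae_of_ae_map hm.aemeasurable h1

lemma poissonExt_PP (h : ∀ n, IsFactor (F n) (a n)) (M : ℕ) (r : ℕ → Set.Ico (0 : ℝ) 1)
    (θ : TorusInf) : poissonExt (PP F M) r θ =
      ∏ n ∈ Finset.range M, F n ((r n : ℝ) * pt (θ n)) := by
  unfold poissonExt PP
  simp only [Pi.sub_apply]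
  rw [integral_prod_inf (Finset.range M) (fun n x => F n (pt (θ n - x)))]
  · exact Finset.prod_congr rfl fun n _ => poisson_formula (h n).diff (r n) (θ n)
  · intro n
    exact (h n).continuous.measurable.comp (measurable_const.sub measurable_id)

lemma poissonExt_limit (h : ∀ n, IsFactor (F n) (a n)) {N : ℕ → ℕ}
    {f : TorusInf → ℂ} (hf : Measurable f)
    (hlim : ∀ᵐ θ ∂haarInf, Tendsto (fun j => PP F (N j) θ) atTop (𝓝 (f θ)))
    (r : ℕ → Set.Ico (0 : ℝ) 1) :
    ∀ᵐ θ ∂haarInf, Tendsto (fun j => ∏ n ∈ Finset.range (N j), F n ((r n : ℝ) * pt (θ n)))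
      atTop (𝓝 (poissonExt f r θ)) := by
  have hmeas : MeasurableSet {θ | Tendsto (fun j => PP F (N j) θ) atTop (𝓝 (f θ))} :=
    measurableSet_tendsto_fun (fun j => measurable_PP h (N j)) hf
  have h1 := ae_ae_sub hmeas hlim (Measure.infinitePi fun n => poissonMeasure (r n))
  filter_upwards [h1] with θ hθ
  simp_rw [← poissonExt_PP h]
  unfold poissonExt
  refine tendsto_integral_of_dominated_convergence (fun _ => (1 : ℝ)) ?_ (integrable_const _)
    ?_ hθ
  · intro j
    exact ((measurable_PP h (N j)).comp (measurable_const.sub measurable_id)).aestronglyMeasurable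
  · intro j
    refine Eventually.of_forall fun φ => ?_
    rw [norm_PP h]

lemma norm_poissonExt_le (h : ∀ n, IsFactor (F n) (a n)) {N : ℕ → ℕ}
    (hN : Tendsto N atTop atTop) {f : TorusInf → ℂ} (hf : Measurable f)
    (hlim : ∀ᵐ θ ∂haarInf, Tendsto (fun j => PP F (N j) θ) atTop (𝓝 (f θ)))
    (r : ℕ → Set.Ico (0 : ℝ) 1) :
    ∀ᵐ θ ∂haarInf, ∀ s : Finset ℕ, ‖poissonExt f r θ‖ ≤
      ∏ n ∈ s, ‖F n ((r n : ℝ) * pt (θ n))‖ := by
  filter_upwards [poissonExt_limit h hf hlim r] with θ hθ s
  obtain ⟨K, hK⟩ := s.exists_nat_subset_range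
  have hle : ∀ n, ‖F n ((r n : ℝ) * pt (θ n))‖ ≤ 1 := fun n => by
    apply (h n).norm_le
    rw [norm_mul, norm_pt, mul_one, Complex.norm_real, Real.norm_eq_abs, abs_of_nonneg (r n).2.1]
    exact (r n).2.2.le
  refine le_of_tendsto hθ.norm ?_
  filter_upwards [hN.eventually_ge_atTop K] with j hj
  rw [norm_prod]
  have hsub : s ⊆ Finset.range (N j) := hK.trans (Finset.range_subset_range.mpr hj)
  rw [← Finset.prod_sdiff hsub]
  have h1 : ∏ n ∈ Finset.range (N j) \ s, ‖F n ((r n : ℝ) * pt (θ n))‖ ≤ 1 :=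
    Finset.prod_le_one (fun _ _ => norm_nonneg _) fun n _ => hle n
  have h2 : 0 ≤ ∏ n ∈ s, ‖F n ((r n : ℝ) * pt (θ n))‖ :=
    Finset.prod_nonneg fun _ _ => norm_nonneg _
  nlinarith

end Pool.Agent.H86.Torus
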