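import Pool.Agent.H86.Torus.Factor

/-!
# Infinite products of one-variable factors on the infinite-dimensional torus
-/

open MeasureTheory Filter Topology
open scoped ENNReal

namespace Pool.Agent.H86.Torus

/-- Integrals of finite products of functions of single coordinates. -/
lemma integral_prod_inf {μ : ℕ → Measure Circ} [∀ n, IsProbabilityMeasure (μ n)]
    {𝕂 : Type*} [RCLike 𝕂] (s : Finset ℕ) (F : ℕ → Circ → 𝕂) (hF : ∀ n, Measurable (F n)) :
    ∫ θ, ∏ n ∈ s, F n (θ n) ∂(Measure.infinitePi μ) = ∏ n ∈ s, ∫ x, F n x ∂(μ n) := by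
  have h0 : AEStronglyMeasurable (fun y : (i : s) → Circ => ∏ i : s, F i (y i))
      (Measure.pi (fun i : s => μ i)) := by
    apply Measurable.aestronglyMeasurable
    exact Finset.measurable_prod _ fun i _ => (hF i).comp (measurable_pi_apply i)
  have h1 : ∀ θ : ℕ → Circ, ∏ n ∈ s, F n (θ n) =
      (fun y : (i : s) → Circ => ∏ i : s, F i (y i)) (s.restrict θ) := by
    intro θ
    simp only [Finset.restrict]
    rw [Finset.prod_coe_sort s (fun n => F n (θ n))]
  have h2 := integral_restrict_infinitePi (μ := μ) h0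
  calc ∫ θ, ∏ n ∈ s, F n (θ n) ∂(Measure.infinitePi μ)
      = ∫ θ, (fun y : (i : s) → Circ => ∏ i : s, F i (y i)) (s.restrict θ)
          ∂(Measure.infinitePi μ) := integral_congr_ae (Eventually.of_forall h1)
    _ = ∫ y, ∏ i : s, F i (y i) ∂(Measure.pi (fun i : s => μ i)) := h2
    _ = ∏ i : s, ∫ x, F i x ∂(μ i) :=
      integral_fintype_prod_eq_prod (𝕜 := 𝕂) (fun (i : s) => F i)
    _ = ∏ n ∈ s, ∫ x, F n x ∂(μ n) :=
      Finset.prod_coe_sort s (fun n => ∫ x, F n x ∂(μ n))

/-- Partial products. -/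
noncomputable def PP (F : ℕ → ℂ → ℂ) (N : ℕ) (θ : TorusInf) : ℂ :=
  ∏ n ∈ Finset.range N, F n (pt (θ n))

variable {F : ℕ → ℂ → ℂ} {a : ℕ → ℝ}

lemma norm_PP (h : ∀ n, IsFactor (F n) (a n)) (N : ℕ) (θ : TorusInf) : ‖PP F N θ‖ = 1 := by
  unfold PP
  rw [norm_prod]
  exact Finset.prod_eq_one fun n _ => (h n).norm_eq _

lemma measurable_PP (h : ∀ n, IsFactor (F n) (a n)) (N : ℕ) : Measurable (PP F N) := by
  unfold PP
  exact Finset.measurable_prod _ fun n _ =>
    (h n).continuous.measurable.comp (measurable_pi_apply n)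

lemma one_sub_prod_le (h : ∀ n, IsFactor (F n) (a n)) (s : Finset ℕ) :
    1 - ∏ n ∈ s, a n ≤ ∑ n ∈ s, (1 - a n) := by
  induction s using Finset.induction_on with
  | empty => simp
  | insert n s hn ih =>
    rw [Finset.prod_insert hn, Finset.sum_insert hn]
    have h1 : 0 ≤ ∏ n ∈ s, a n := Finset.prod_nonneg fun n _ => (h n).nonneg
    have h2 : ∏ n ∈ s, a n ≤ 1 := Finset.prod_le_one (fun n _ => (h n).nonneg)
      fun n _ => (h n).le_one
    nlinarith [(h n).nonneg, (h n).le_one]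

lemma integral_dist_PP (h : ∀ n, IsFactor (F n) (a n)) {N M : ℕ} (hNM : N ≤ M) :
    ∫ θ, ‖PP F M θ - PP F N θ‖ ^ 2 ∂haarInf ≤ 2 * ∑ n ∈ Finset.Ico N M, (1 - a n) := by
  set Q : TorusInf → ℂ := fun θ => ∏ n ∈ Finset.Ico N M, F n (pt (θ n)) with hQ
  have hQn : ∀ θ, ‖Q θ‖ = 1 := fun θ => by
    rw [hQ]
    simp only
    rw [norm_prod]
    exact Finset.prod_eq_one fun n _ => (h n).norm_eq _
  have hQm : Measurable Q := Finset.measurable_prod _ fun n _ =>
    (h n).continuous.measurable.comp (measurable_pi_apply n)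
  have hQi : Integrable Q haarInf := by
    refine Integrable.of_bound hQm.aestronglyMeasurable 1 (Eventually.of_forall fun θ => ?_)
    rw [hQn]
  have h1 : ∀ θ, PP F M θ = PP F N θ * Q θ := by
    intro θ
    unfold PP
    rw [hQ, Finset.range_eq_Ico, Finset.range_eq_Ico]
    exact (Finset.prod_Ico_consecutive _ (Nat.zero_le N) hNM).symm
  have h2 : ∀ θ, ‖PP F M θ - PP F N θ‖ ^ 2 = 2 - 2 * (Q θ).re := by
    intro θ
    rw [h1 θ, show PP F N θ * Q θ - PP F N θ = PP F N θ * (Q θ - 1) by ring, norm_mul,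
      norm_PP h, one_mul, ← Complex.normSq_eq_norm_sq, Complex.normSq_apply]
    have h3 : ‖Q θ‖ ^ 2 = 1 := by rw [hQn]; norm_num
    rw [← Complex.normSq_eq_norm_sq, Complex.normSq_apply] at h3
    simp
    nlinarith
  simp_rw [h2]
  have h4 : ∫ θ, (Q θ).re ∂haarInf = ∏ n ∈ Finset.Ico N M, a n := by
    have h5 : ∫ θ, Q θ ∂haarInf = ((∏ n ∈ Finset.Ico N M, a n : ℝ) : ℂ) := by
      rw [hQ]
      unfold haarInf
      rw [integral_prod_inf (μ := fun _ => haarCirc) (Finset.Ico N M)
        (fun n x => F n (pt x)) (fun n => (h n).continuous.measurable)]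
      push_cast
      exact Finset.prod_congr rfl fun n _ => (h n).integral
    have h6 := integral_re hQi
    have h7 : ∫ θ, (Q θ).re ∂haarInf = (∫ θ, Q θ ∂haarInf).re := h6
    rw [h7, h5, Complex.ofReal_re]
  have h8 : Integrable (fun θ => 2 * (Q θ).re) haarInf := (hQi.re).const_mul 2
  rw [integral_sub (integrable_const _) h8, integral_const_mul, h4]
  simp only [integral_const, probReal_univ, smul_eq_mul, one_mul]
  have := one_sub_prod_le h (Finset.Ico N M)
  linarith

/-- Existence of the infinite product. -/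
lemma exists_limit (h : ∀ n, IsFactor (F n) (a n)) (N : ℕ → ℕ) (hN : Monotone N)
    (hsum : ∀ i j, i ≤ j → ∑ n ∈ Finset.Ico (N i) (N j), (1 - a n) ≤ (1 / 4) ^ i) :
    ∃ f : TorusInf → ℂ, Measurable f ∧ (∀ᵐ θ ∂haarInf, ‖f θ‖ = 1) ∧
      ∀ᵐ θ ∂haarInf, Tendsto (fun j => PP F (N j) θ) atTop (𝓝 (f θ)) := by
  have hbd : ∀ i j, i ≤ j → eLpNorm (PP F (N j) - PP F (N i)) 2 haarInf ≤
      ENNReal.ofReal (2 * (1 / 2) ^ i) := by
    intro i j hij
    have hmem : MemLp (PP F (N j) - PP F (N i)) 2 haarInf := by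
      refine MemLp.of_bound ((measurable_PP h _).sub
        (measurable_PP h _)).aestronglyMeasurable 2 (Eventually.of_forall fun θ => ?_)
      refine (norm_sub_le _ _).trans ?_
      rw [norm_PP h, norm_PP h]
      norm_num
    rw [hmem.eLpNorm_eq_integral_rpow_norm (by norm_num) (by norm_num)]
    apply ENNReal.ofReal_le_ofReal
    have h1 := integral_dist_PP h (hN hij)
    have h2 := hsum i j hij
    have h3 : ∫ θ, ‖(PP F (N j) - PP F (N i)) θ‖ ^ (2 : ℝ≥0∞).toReal ∂haarInf ≤
        2 * (1 / 4) ^ i := by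
      simp only [ENNReal.toReal_ofNat, Real.rpow_ofNat, Pi.sub_apply]
      linarith
    have h4 : 0 ≤ ∫ θ, ‖(PP F (N j) - PP F (N i)) θ‖ ^ (2 : ℝ≥0∞).toReal ∂haarInf :=
      integral_nonneg fun θ => by positivity
    have h5 : (2 : ℝ≥0∞).toReal⁻¹ = 1 / 2 := by norm_num
    rw [h5, ← Real.sqrt_eq_rpow, Real.sqrt_le_left (by positivity)]
    refine h3.trans ?_
    have h6 : (2 * (1 / 2 : ℝ) ^ i) ^ 2 = 4 * (1 / 4) ^ i := by
      rw [mul_pow, ← pow_mul, mul_comm i 2, pow_mul]
      norm_num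
    rw [h6]
    have : (0 : ℝ) < (1 / 4) ^ i := by positivity
    linarith
  have hconv : ∀ᵐ θ ∂haarInf, ∃ l : ℂ, Tendsto (fun j => PP F (N j) θ) atTop (𝓝 l) := by
    refine MeasureTheory.Lp.ae_tendsto_of_cauchy_eLpNorm (p := 2)
      (fun j => (measurable_PP h (N j)).aestronglyMeasurable) (by norm_num)
      (B := fun i => ENNReal.ofReal (5 * (1 / 2) ^ i)) ?_ ?_
    · have hs : Summable fun i : ℕ => 5 * (1 / 2 : ℝ) ^ i :=
        (summable_geometric_of_lt_one (by norm_num) (by norm_num)).mul_left _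
      exact (hs.tsum_ofReal_ne_top)
    · intro K n m hn hm
      have h1 : (PP F (N n) - PP F (N m)) =
          (PP F (N n) - PP F (N K)) - (PP F (N m) - PP F (N K)) := by
        funext θ
        simp
      rw [h1]
      refine lt_of_le_of_lt (eLpNorm_sub_le ((measurable_PP h _).sub
        (measurable_PP h _)).aestronglyMeasurable ((measurable_PP h _).sub
        (measurable_PP h _)).aestronglyMeasurable (by norm_num)) ?_
      refine lt_of_le_of_lt (add_le_add (hbd K n hn) (hbd K m hm)) ?_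
      rw [← ENNReal.ofReal_add (by positivity) (by positivity)]
      rw [ENNReal.ofReal_lt_ofReal_iff (by positivity)]
      have : (0 : ℝ) < (1 / 2) ^ K := by positivity
      linarith
  obtain ⟨f, hf, hlim⟩ := measurable_limit_of_tendsto_metrizable_ae
    (fun j => (measurable_PP h (N j)).aemeasurable) hconv
  refine ⟨f, hf, ?_, hlim⟩
  filter_upwards [hlim] with θ hθ
  have h1 := hθ.norm
  simp only [norm_PP h] at h1
  exact tendsto_nhds_unique h1 tendsto_const_nhds |>.symm ▸ rfl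

end Pool.Agent.H86.Torus
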