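import Pool.Agent.H86.Torus.Limit

/-!
# Arc measures and the comparison function of one coordinate
-/

open MeasureTheory Filter Topology
open scoped ENNReal

namespace Pool.Agent.H86.Torus

lemma norm_one_sub_pt_le (x : Circ) : ‖1 - pt x‖ ≤ 2 * Real.pi * ‖x‖ := by
  induction x using QuotientAddGroup.induction_on with
  | H t =>
    have h1 : ((t - round t : ℝ) : Circ) = (t : Circ) := by
      rw [AddCircle.coe_sub]
      have : ((round t : ℤ) : ℝ) = (round t : ℤ) • (1 : ℝ) := by simp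
      rw [this, AddCircle.coe_zsmul, AddCircle.coe_period, smul_zero, sub_zero]
    have h2 : ‖((t : ℝ) : Circ)‖ = |t - round t| := by
      rw [AddCircle.norm_eq]
      simp
    change ‖1 - pt ((t : ℝ) : Circ)‖ ≤ 2 * Real.pi * ‖((t : ℝ) : Circ)‖
    rw [h2, ← h1, pt_coe, norm_sub_rev]
    have h3 := Real.norm_exp_I_mul_ofReal_sub_one_le (x := 2 * Real.pi * (t - round t))
    have h4 : Complex.I * ((2 * Real.pi * (t - round t) : ℝ) : ℂ) =
        2 * Real.pi * ((t - round t : ℝ) : ℂ) * Complex.I := by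
      push_cast
      ring
    rw [h4] at h3
    refine h3.trans ?_
    rw [Real.norm_eq_abs, abs_mul, abs_of_pos (by positivity : (0 : ℝ) < 2 * Real.pi)]

lemma haarCirc_eq_volume : (volume : Measure Circ) = haarCirc := by
  rw [AddCircle.volume_eq_smul_haarAddCircle]
  simp

/-- The arc of points with `|1 - e^{2π i x}| ≤ η`. -/
def arc (η : ℝ) : Set Circ := {x | ‖1 - pt x‖ ≤ η}

lemma measurableSet_arc (η : ℝ) : MeasurableSet (arc η) :=
  measurableSet_le (continuous_const.sub continuous_pt).norm.measurable measurable_const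

lemma haar_arc_ge {η : ℝ} (h0 : 0 ≤ η) (h1 : η ≤ 1) : η / 4 ≤ haarCirc.real (arc η) := by
  have hsub : Metric.closedBall (0 : Circ) (η / 8) ⊆ arc η := by
    intro x hx
    rw [mem_closedBall_zero_iff] at hx
    have h2 := norm_one_sub_pt_le x
    have h3 := Real.pi_lt_four
    have h4 : 2 * Real.pi * ‖x‖ ≤ 2 * 4 * (η / 8) := by
      have := Real.pi_pos
      gcongr
    show ‖1 - pt x‖ ≤ η
    linarith
  have h2 : haarCirc.real (Metric.closedBall (0 : Circ) (η / 8)) = η / 4 := by
    rw [← haarCirc_eq_volume, Measure.real, AddCircle.volume_closedBall, min_eq_right (by linarith),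
      ENNReal.toReal_ofReal (by linarith)]
    ring
  rw [← h2]
  exact measureReal_mono hsub

lemma pt_nsmul (M : ℕ) (x : Circ) : pt (M • x) = pt x ^ M := by
  induction M with
  | zero =>
    rw [zero_smul, pow_zero]
    have h := pt_coe 0
    simpa using h
  | succ M ih => rw [succ_nsmul, pt_add, ih, pow_succ]

lemma measurePreserving_nsmul {M : ℕ} (hM : M ≠ 0) :
    MeasurePreserving (fun x : Circ => M • x) haarCirc haarCirc := by
  have h := Measure.measurePreserving_zsmul haarCirc (n := (M : ℤ)) (by exact_mod_cast hM)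
  simpa using h

/-- The comparison function of one coordinate. -/
noncomputable def H (ℓ M : ℕ) (x : Circ) : ℝ :=
  1 - (1 / 18) * ∑ l ∈ Finset.range ℓ,
    (1 / 2) ^ (l + 1) * (arc ((1 / 2) ^ (ℓ - l))).indicator (fun _ => (1 : ℝ)) (M • x)

lemma measurable_H (ℓ M : ℕ) : Measurable (H ℓ M) := by
  unfold H
  refine measurable_const.sub (measurable_const.mul ?_)
  refine Finset.measurable_sum _ fun l _ => measurable_const.mul ?_
  have h1 : Measurable fun x : Circ => M • x := (continuous_nsmul M).measurable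
  exact ((measurable_const.indicator (measurableSet_arc _)).comp h1)

lemma sum_half_le (ℓ l0 : ℕ) : ∑ l ∈ Finset.Ico l0 ℓ, (1 / 2 : ℝ) ^ (l + 1) ≤ (1 / 2) ^ l0 := by
  rcases le_total ℓ l0 with h | h
  · rw [Finset.Ico_eq_empty_of_le h]
    simp
  · induction ℓ, h using Nat.le_induction with
    | base => simp
    | succ k hk ih =>
      have h2 : ∑ l ∈ Finset.Ico l0 k, (1 / 2 : ℝ) ^ (l + 1) ≤ (1 / 2) ^ l0 - (1 / 2) ^ k := by
        clear ih
        induction k, hk using Nat.le_induction with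
        | base => simp
        | succ k hk ih =>
          rw [Finset.sum_Ico_succ_top hk]
          have : (1 / 2 : ℝ) ^ (k + 1) = (1 / 2) ^ k / 2 := by rw [pow_succ]; ring
          linarith
      rw [Finset.sum_Ico_succ_top hk]
      have : (1 / 2 : ℝ) ^ (k + 1) = (1 / 2) ^ k / 2 := by rw [pow_succ]; ring
      have : (0 : ℝ) < (1 / 2) ^ k := by positivity
      linarith

/-- For each point some scale makes the Blaschke factor at most `H`. -/
lemma exists_scale {ℓ M : ℕ} (hℓ : 0 < ℓ) (x : Circ) : ∃ l < ℓ,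
    ‖bl (1 - (1 / 2) ^ ℓ) (((1 - (1 / 2) ^ (ℓ - l) : ℝ) : ℂ) * pt x ^ M)‖ ≤ H ℓ M x := by
  classical
  by_cases hex : ∃ l, l < ℓ ∧ M • x ∈ arc ((1 / 2) ^ (ℓ - l))
  · obtain ⟨hl, hx⟩ := Nat.find_spec hex
    set l0 := Nat.find hex with hl0
    refine ⟨l0, hl, ?_⟩
    have h1 : ‖1 - pt (M • x)‖ ≤ (1 / 2) ^ (ℓ - l0) := hx
    have h2 : (1 / 2 : ℝ) ^ ℓ ≤ (1 / 2) ^ (ℓ - l0) :=
      pow_le_pow_of_le_one (by norm_num) (by norm_num) (Nat.sub_le _ _)
    have h3 : (1 / 2 : ℝ) ^ (ℓ - l0) ≤ 1 := pow_le_one₀ (by norm_num) (by norm_num)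
    have h4 := norm_bl_le (ε := (1 / 2) ^ ℓ) (η := (1 / 2) ^ (ℓ - l0)) (by positivity) h2 h3 h1
    rw [pt_nsmul] at h4
    refine h4.trans ?_
    unfold H
    have h5 : ∑ l ∈ Finset.range ℓ, (1 / 2 : ℝ) ^ (l + 1) *
        (arc ((1 / 2) ^ (ℓ - l))).indicator (fun _ => (1 : ℝ)) (M • x) ≤ (1 / 2) ^ l0 := by
      refine le_trans ?_ (sum_half_le ℓ l0)
      rw [← Finset.sum_subset (s₁ := Finset.Ico l0 ℓ) (s₂ := Finset.range ℓ)]
      · apply Finset.sum_le_sum
        intro l _
        have h6 : (arc ((1 / 2) ^ (ℓ - l))).indicator (fun _ => (1 : ℝ)) (M • x) ≤ 1 :=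
          Set.indicator_le_self' (fun _ _ => zero_le_one) _
        have h7 : (0 : ℝ) < (1 / 2) ^ (l + 1) := by positivity
        nlinarith
      · intro l hl
        simp only [Finset.mem_Ico] at hl
        simp only [Finset.mem_range]
        exact hl.2
      · intro l hl hl2
        simp only [Finset.mem_range] at hl
        simp only [Finset.mem_Ico, not_and, not_lt] at hl2
        have h8 : l < l0 := by
          by_contra hcon
          have := hl2 (not_lt.mp hcon)
          omega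
        have h9 := Nat.find_min hex h8
        have h10 : M • x ∉ arc ((1 / 2) ^ (ℓ - l)) := fun hc => h9 ⟨hl, hc⟩
        rw [Set.indicator_of_notMem h10, mul_zero]
    have h6 : (1 / 2 : ℝ) ^ ℓ / (18 * (1 / 2) ^ (ℓ - l0)) = (1 / 18) * (1 / 2) ^ l0 := by
      have h7 : (1 / 2 : ℝ) ^ ℓ = (1 / 2) ^ (ℓ - l0) * (1 / 2) ^ l0 := by
        rw [← pow_add]; congr 1; omega
      have h8 : (1 / 2 : ℝ) ^ (ℓ - l0) ≠ 0 := by positivity
      rw [h7]
      field_simp
    rw [h6]
    linarith
  · push Not at hex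
    refine ⟨0, hℓ, ?_⟩
    have h1 : H ℓ M x = 1 := by
      unfold H
      rw [Finset.sum_eq_zero, mul_zero, sub_zero]
      intro l hl
      rw [Finset.mem_range] at hl
      rw [Set.indicator_of_notMem (hex l hl), mul_zero]
    rw [h1]
    have h2 : (0 : ℝ) < (1 / 2) ^ ℓ := by positivity
    have h3 : (1 / 2 : ℝ) ^ ℓ ≤ 1 := pow_le_one₀ (by norm_num) (by norm_num)
    apply norm_bl_le_one (by linarith) (by linarith)
    rw [norm_mul, norm_pow, norm_pt, one_pow, mul_one, Complex.norm_real, Real.norm_eq_abs, tsub_zero,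
      abs_of_nonneg (by linarith)]
    linarith

lemma H_nonneg (ℓ M : ℕ) (x : Circ) : 0 ≤ H ℓ M x := by
  unfold H
  have h5 : ∑ l ∈ Finset.range ℓ, (1 / 2 : ℝ) ^ (l + 1) *
        (arc ((1 / 2) ^ (ℓ - l))).indicator (fun _ => (1 : ℝ)) (M • x) ≤ (1 / 2) ^ 0 := by
    refine le_trans ?_ (sum_half_le ℓ 0)
    rw [← Finset.range_eq_Ico]
    apply Finset.sum_le_sum
    intro l _
    have h6 : (arc ((1 / 2) ^ (ℓ - l))).indicator (fun _ => (1 : ℝ)) (M • x) ≤ 1 :=
      Set.indicator_le_self' (fun _ _ => zero_le_one) _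
    have h7 : (0 : ℝ) < (1 / 2) ^ (l + 1) := by positivity
    nlinarith
  norm_num at h5 ⊢
  linarith

lemma integral_H_le {ℓ M : ℕ} (hM : M ≠ 0) :
    ∫ x, H ℓ M x ∂haarCirc ≤ 1 - ℓ * (1 / 2) ^ ℓ / 144 := by
  unfold H
  have hind : ∀ l, Integrable (fun x : Circ =>
      (arc ((1 / 2) ^ (ℓ - l))).indicator (fun _ => (1 : ℝ)) (M • x)) haarCirc := by
    intro l
    refine Integrable.of_bound ?_ 1 (Eventually.of_forall fun x => ?_)
    · exact ((measurable_const.indicator (measurableSet_arc _)).comp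
        (continuous_nsmul M).measurable).aestronglyMeasurable
    · rw [Real.norm_eq_abs, abs_of_nonneg (Set.indicator_nonneg (fun _ _ => zero_le_one) _)]
      exact Set.indicator_le_self' (fun _ _ => zero_le_one) _
  have hsum : Integrable (fun x : Circ => (1 / 18 : ℝ) * ∑ l ∈ Finset.range ℓ,
      (1 / 2) ^ (l + 1) * (arc ((1 / 2) ^ (ℓ - l))).indicator (fun _ => (1 : ℝ)) (M • x))
      haarCirc :=
    (integrable_finsetSum _ fun l _ => (hind l).const_mul _).const_mul _
  rw [integral_sub (integrable_const _) hsum, integral_const_mul,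
    integral_finsetSum _ fun l _ => (hind l).const_mul _]
  simp only [integral_const, probReal_univ, smul_eq_mul, one_mul, integral_const_mul]
  have h1 : ∀ l ∈ Finset.range ℓ, (1 / 2 : ℝ) ^ ℓ / 8 ≤ (1 / 2) ^ (l + 1) *
      ∫ x, (arc ((1 / 2) ^ (ℓ - l))).indicator (fun _ => (1 : ℝ)) (M • x) ∂haarCirc := by
    intro l hl
    rw [Finset.mem_range] at hl
    have h2 : ∫ x, (arc ((1 / 2) ^ (ℓ - l))).indicator (fun _ => (1 : ℝ)) (M • x) ∂haarCirc =
        haarCirc.real (arc ((1 / 2) ^ (ℓ - l))) := by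
      have h3 := integral_map (μ := haarCirc) (φ := fun x : Circ => M • x)
        (continuous_nsmul M).measurable.aemeasurable
        (f := (arc ((1 / 2) ^ (ℓ - l))).indicator (fun _ => (1 : ℝ)))
        (measurable_const.indicator (measurableSet_arc _)).aestronglyMeasurable
      rw [← h3, (measurePreserving_nsmul hM).map_eq, integral_indicator (measurableSet_arc _)]
      simp
    rw [h2]
    have h4 := haar_arc_ge (η := (1 / 2) ^ (ℓ - l)) (by positivity)
      (pow_le_one₀ (by norm_num) (by norm_num))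
    have h5 : (1 / 2 : ℝ) ^ ℓ / 8 = (1 / 2) ^ (l + 1) * ((1 / 2) ^ (ℓ - l) / 4) := by
      have h7 : (1 / 2 : ℝ) ^ ℓ = (1 / 2) ^ (ℓ - l) * (1 / 2) ^ l := by
        rw [← pow_add]; congr 1; omega
      rw [h7, pow_succ]
      ring
    rw [h5]
    gcongr
  have h2 := Finset.sum_le_sum h1
  simp only [Finset.sum_const, Finset.card_range, nsmul_eq_mul] at h2
  linarith

end Pool.Agent.H86.Torus
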